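import Pool.Agent.helper5.PR.SpecZ

set_option autoImplicit false

namespace Pool.Agent.PR

open Matrix Module

theorem Z_TRV_pow {A : Type} [Ring A] (a : A) (ha : a * a = 0) (k : ℕ) :
    (1 + a) ^ k = 1 + (k : A) * a := by
  induction k with
  | zero => simp
  | succ k ih =>
    have h1 : (k : A) * a * a = 0 := by rw [mul_assoc, ha, mul_zero]
    rw [pow_succ, ih, add_mul, mul_add, mul_add, h1]
    push_cast
    rw [add_mul]
    simp only [mul_one, one_mul, add_zero]
    abel

theorem Z_TRV_root {K A : Type} [Field K] [CharZero K] [Ring A] [Algebra K A] (a T : A) (k : ℕ)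
    (hk : 0 < k) (c : K) (ha : IsNilpotent a) (hT : T * T = 0) (h : (1 + a) ^ k = 1 + c • T) :
    a = (c / (k : K)) • T := by
  have hk0 : (k : K) ≠ 0 := Nat.cast_ne_zero.2 hk.ne'
  set x : A := 1 + a with hx
  have hxa : x - 1 = a := by rw [hx]; abel
  have hcax : Commute a x := by
    rw [hx]
    exact (Commute.one_right a).add_right (Commute.refl a)
  have hcsum : ∀ (i : ℕ) (b : A), Commute b x → Commute b (∑ j ∈ Finset.range i, x ^ j) := by
    intro i b hb
    exact Commute.sum_right _ _ _ (fun j _ => hb.pow_right j)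
  have hpow : ∀ i : ℕ, x ^ i - 1 = a * ∑ j ∈ Finset.range i, x ^ j := by
    intro i
    rw [← mul_geom_sum x i, hxa]
  have hnil : ∀ i : ℕ, IsNilpotent (x ^ i - 1) := by
    intro i
    rw [hpow i]
    exact (hcsum i a hcax).isNilpotent_mul_right ha
  have hcx : ∀ i j : ℕ, Commute (x ^ i - 1) (x ^ j - 1) := by
    intro i j
    have h1 : Commute (x ^ i) (x ^ j) := Commute.pow_pow_self x i j
    exact (h1.sub_left (Commute.one_left _)).sub_right
      ((Commute.one_right _).sub_left (Commute.one_left _))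
  set S : A := ∑ j ∈ Finset.range k, x ^ j with hS
  have hSk : S = algebraMap K A (k : K) + ∑ j ∈ Finset.range k, (x ^ j - 1) := by
    rw [Finset.sum_sub_distrib, ← hS]
    simp
  have hSu : IsUnit S := by
    rw [hSk]
    refine IsNilpotent.isUnit_add_left_of_commute ?_ ?_ ?_
    · exact Commute.isNilpotent_sum (fun i _ => hnil i) (fun i j _ _ => hcx i j)
    · exact (isUnit_iff_ne_zero.2 hk0).map (algebraMap K A)
    · exact (Algebra.commutes (k : K) _).symm
  have haS : a * S = c • T := by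
    have h1 : a * S = x ^ k - 1 := (hpow k).symm
    rw [h1, h]
    abel
  have hcaS : Commute a S := hcsum k a hcax
  have haa : a * a = 0 := by
    have h1 : (a * S) * (a * S) = 0 := by
      rw [haS, smul_mul_smul_comm, hT, smul_zero]
    have h2 : (a * S) * (a * S) = (a * a) * (S * S) := by
      calc (a * S) * (a * S) = a * (S * a) * S := by noncomm_ring
        _ = a * (a * S) * S := by rw [hcaS.eq]
        _ = (a * a) * (S * S) := by noncomm_ring
    rw [h2] at h1
    exact (hSu.mul hSu).mul_left_eq_zero.1 h1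
  have hk2 := Z_TRV_pow a haa k
  rw [← hx, h] at hk2
  have h3 : c • T = (k : K) • a := by
    have h4 : (k : A) * a = (k : K) • a := by
      rw [Nat.cast_smul_eq_nsmul, nsmul_eq_mul]
    rw [← h4]
    exact add_left_cancel hk2
  rw [div_eq_inv_mul, mul_smul, h3, smul_smul, inv_mul_cancel₀ hk0, one_smul]

theorem Z_TRV_gl {K W Q : Type} [Field K] [AddCommGroup W] [Module K W] [FiniteDimensional K W]
    [Group Q] (σ : Q →* Module.End K W) (hσ : Function.Injective σ) (m : ℕ) (hm : finrank K W = m) :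
    ∃ f : Q →* GL (Fin m) K, Function.Injective f := by
  let b := Module.finBasisOfFinrankEq K W hm
  let e : Module.End K W →* Matrix (Fin m) (Fin m) K := (LinearMap.toMatrixAlgEquiv b : _ →* _)
  have he : Function.Injective e := (LinearMap.toMatrixAlgEquiv b).injective
  refine ⟨(e.comp σ).toHomUnits, ?_⟩
  intro x y hxy
  have h1 := congrArg Units.val hxy
  rw [MonoidHom.coe_toHomUnits, MonoidHom.coe_toHomUnits] at h1
  exact hσ (he h1)

/-- nilpotent group: a nontrivial normal subgroup meets the centre -/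
theorem Z_TRV_cen {G : Type} [Group G] (hG : Group.IsNilpotent G) (N : Subgroup G) (hN : N.Normal)
    (hne : ∃ x ∈ N, x ≠ 1) : ∃ t ∈ N, t ≠ 1 ∧ ∀ g : G, g * t = t * g := by
  classical
  obtain ⟨c, hc⟩ := hG
  obtain ⟨x, hxN, hx1⟩ := hne
  have hex : ∃ i : ℕ, ∃ y ∈ N, y ≠ 1 ∧ y ∈ Subgroup.upperCentralSeries G i :=
    ⟨c, x, hxN, hx1, by rw [hc]; exact Subgroup.mem_top x⟩
  obtain ⟨y, hyN, hy1, hyZ⟩ := Nat.find_spec hex
  have hmin := fun (i : ℕ) (hi : i < Nat.find hex) => Nat.find_min hex hi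
  rcases Nat.eq_zero_or_pos (Nat.find hex) with h0 | hpos
  · rw [h0, Subgroup.upperCentralSeries_zero, Subgroup.mem_bot] at hyZ
    exact absurd hyZ hy1
  · obtain ⟨i, hi⟩ : ∃ i, Nat.find hex = i + 1 := ⟨Nat.find hex - 1, by omega⟩
    rw [hi, Subgroup.mem_upperCentralSeries_succ_iff] at hyZ
    refine ⟨y, hyN, hy1, ?_⟩
    intro g
    by_contra hcon
    apply hmin i (by omega)
    refine ⟨y * g * y⁻¹ * g⁻¹, ?_, ?_, hyZ g⟩
    · have h1 : g * y⁻¹ * g⁻¹ ∈ N := hN.conj_mem _ (N.inv_mem hyN) g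
      have h2 := N.mul_mem hyN h1
      have h3 : y * (g * y⁻¹ * g⁻¹) = y * g * y⁻¹ * g⁻¹ := by group
      rw [h3] at h2
      exact h2
    · intro h1
      apply hcon
      have h2 : y * g * y⁻¹ * g⁻¹ * (g * y) = g * y := by rw [h1, one_mul]
      have h3 : y * g * y⁻¹ * g⁻¹ * (g * y) = y * g := by group
      rw [h3] at h2
      exact h2.symm

/-- elements acting trivially modulo the line of a common eigenvector -/
theorem Z_TRV_line {K V Q : Type} [Field K] [AddCommGroup V] [Module K V]
    [FiniteDimensional K V] [Group Q] (ρ : Q →* Module.End K V) (v : V) (hv0 : v ≠ 0)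
    (hL : InvS ρ (Submodule.span K {v})) (χ : K) (g : Q) (hg : ρ g v = χ • v)
    (hdet : LinearMap.det (ρ g) = 1) (hq : quoS ρ (Submodule.span K {v}) hL g = 1) (hne : ρ g ≠ 1) :
    (ρ g - 1) * (ρ g - 1) = 0 ∧ finrank K (LinearMap.range (ρ g - 1)) = 1 := by
  have hmem : ∀ w : V, ρ g w - w ∈ Submodule.span K {v} := by
    intro w
    have h1 : quoS ρ (Submodule.span K {v}) hL g (Submodule.Quotient.mk w) =
        Submodule.Quotient.mk w := by rw [hq]; rfl
    have h2 : quoS ρ (Submodule.span K {v}) hL g (Submodule.Quotient.mk w) =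
        Submodule.Quotient.mk (ρ g w) := rfl
    rw [h2] at h1
    exact (Submodule.Quotient.eq _).1 h1
  have hχ : χ = 1 := by
    have h1 := LinearMap.det_eq_det_mul_det (Submodule.span K {v}) (ρ g) (fun w hw => hL g w hw)
    have h2 : (Submodule.span K {v}).mapQ (Submodule.span K {v}) (ρ g) (fun w hw => hL g w hw) = 1 := hq
    rw [h2, hdet, map_one, mul_one] at h1
    have h3 : (ρ g).restrict (fun w hw => hL g w hw) =
        χ • (1 : Module.End K (Submodule.span K {v})) := by
      ext w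
      obtain ⟨w, hw⟩ := w
      obtain ⟨a, rfl⟩ := Submodule.mem_span_singleton.1 hw
      simp [hg, smul_comm χ a v]
    rw [h3, LinearMap.det_smul, finrank_span_singleton hv0, pow_one, map_one, mul_one] at h1
    exact h1.symm
  rw [hχ, one_smul] at hg
  have hle : LinearMap.range (ρ g - 1) ≤ Submodule.span K {v} := by
    rintro _ ⟨w, rfl⟩
    exact hmem w
  refine ⟨?_, ?_⟩
  · ext w
    obtain ⟨a, ha⟩ := Submodule.mem_span_singleton.1 (hmem w)
    have h1 : (ρ g - 1) w = a • v := ha.symm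
    rw [Module.End.mul_apply, h1, map_smul, LinearMap.sub_apply, hg, Module.End.one_apply, sub_self,
      smul_zero, LinearMap.zero_apply]
  · have h1 : finrank K (LinearMap.range (ρ g - 1)) ≤ 1 := by
      rw [← finrank_span_singleton (K := K) hv0]
      exact Submodule.finrank_mono hle
    have h2 : 0 < finrank K (LinearMap.range (ρ g - 1)) := by
      rw [Nat.pos_iff_ne_zero]
      intro h3
      have h4 : LinearMap.range (ρ g - 1) = ⊥ := Submodule.finrank_eq_zero.1 h3
      rw [LinearMap.range_eq_bot] at h4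
      exact hne (sub_eq_zero.1 h4)
    omega

theorem Z_TRV_zpow {K V Q : Type} [Field K] [AddCommGroup V] [Module K V] [Group Q]
    (ρ : Q →* Module.End K V) (t : Q) (hT : (ρ t - 1) * (ρ t - 1) = 0) (m : ℤ) :
    ρ (t ^ m) = 1 + (m : K) • (ρ t - 1) := by
  obtain ⟨T, hTdef⟩ : ∃ T : Module.End K V, T = ρ t - 1 := ⟨_, rfl⟩
  rw [← hTdef] at hT ⊢
  have ht : ρ t = 1 + T := by rw [hTdef]; abel
  have hinv : ρ t⁻¹ = 1 - T := by
    have h1 : ρ t⁻¹ * ρ t = 1 := by rw [← map_mul, inv_mul_cancel, map_one]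
    have h2 : (1 + T) * (1 - T) = 1 := by
      have : (1 + T) * (1 - T) = 1 - T * T := by noncomm_ring
      rw [this, hT, sub_zero]
    calc ρ t⁻¹ = ρ t⁻¹ * ((1 + T) * (1 - T)) := by rw [h2, mul_one]
      _ = (ρ t⁻¹ * ρ t) * (1 - T) := by rw [ht, mul_assoc]
      _ = 1 - T := by rw [h1, one_mul]
  induction m using Int.induction_on with
  | zero => simp
  | succ i ih =>
    rw [_root_.zpow_add_one, map_mul, ih, ht, add_mul, mul_add, mul_add, smul_mul_assoc, smul_mul_assoc, hT]
    push_cast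
    rw [add_smul]
    simp only [mul_one, one_mul, smul_zero, add_zero, one_smul]
    abel
  | pred i ih =>
    rw [_root_.zpow_sub_one, map_mul, ih, hinv, add_mul, one_mul, smul_mul_assoc, mul_sub, mul_one, hT,
      sub_zero]
    push_cast
    rw [sub_smul, one_smul]
    abel

theorem Z_TRV (hUNIP : Z_UNIP_stmt) (hAFF : Z_AFF_stmt) (hEIG : Y_EIG_stmt) : Z_TRV_stmt := by
  intro K V _ _ _ _ _ Q _ hn hNE ρ hT hinj hdet
  obtain ⟨hFG, hsolv, htf, hemb⟩ := hNE
  have hnoemb : ∀ f : Q →* GL (Fin (finrank K V - 1)) K, ¬ Function.Injective f := by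
    intro f hf
    refine hemb ⊤ inferInstance K (f.comp (⊤ : Subgroup Q).subtype) ?_
    exact hf.comp (Subgroup.subtype_injective _)
  have hnt : Nontrivial V := by
    apply Module.nontrivial_of_finrank_pos (R := K)
    omega
  obtain ⟨v, -, hv0, χ, hχ⟩ := hEIG K V Q ρ hT ⊤ (fun g w _ => Submodule.mem_top) top_ne_bot
  have hL : InvS ρ (Submodule.span K {v}) := by
    intro g w hw
    obtain ⟨a, rfl⟩ := Submodule.mem_span_singleton.1 hw
    rw [map_smul, hχ g]
    exact Submodule.smul_mem _ _ (Submodule.smul_mem _ _ (Submodule.mem_span_singleton_self v))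
  set σ := quoS ρ (Submodule.span K {v}) hL with hσ
  have hfr : finrank K (V ⧸ Submodule.span K {v}) = finrank K V - 1 := by
    have h1 := Submodule.finrank_quotient_add_finrank (Submodule.span K {v})
    rw [finrank_span_singleton hv0] at h1
    omega
  -- the kernel of the action on the quotient is not trivial
  have hNne : ∃ s : Q, s ≠ 1 ∧ σ s = 1 := by
    by_contra hcon
    have hinjσ : Function.Injective σ := by
      intro x y hxy
      by_contra hne
      apply hcon
      refine ⟨x * y⁻¹, fun h => hne (mul_inv_eq_one.1 h), ?_⟩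
      rw [map_mul, hxy, ← map_mul, mul_inv_cancel, map_one]
    obtain ⟨f, hf⟩ := Z_TRV_gl σ hinjσ _ hfr
    exact hnoemb f hf
  have hline : ∀ g : Q, σ g = 1 → g ≠ 1 →
      (ρ g - 1) * (ρ g - 1) = 0 ∧ finrank K (LinearMap.range (ρ g - 1)) = 1 := by
    intro g hg hg1
    refine Z_TRV_line ρ v hv0 hL _ g (hχ g) (hdet g) hg ?_
    intro h
    exact hg1 (hinj (by rw [h, map_one]))
  obtain ⟨U, hUn, hcU, hUiff, hUnil⟩ := hUNIP K V Q ρ hT hinj
  have hNU : ∀ g : Q, σ g = 1 → g ∈ U := by
    intro g hg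
    by_cases hg1 : g = 1
    · rw [hg1]; exact U.one_mem
    · rw [hUiff]
      exact ⟨2, by rw [pow_two]; exact (hline g hg hg1).1⟩
  -- a central element of `U` in the kernel
  obtain ⟨t, htσ, ht1, htc⟩ : ∃ t : Q, σ t = 1 ∧ t ≠ 1 ∧ ∀ u ∈ U, u * t = t * u := by
    let N : Subgroup U := (σ.comp U.subtype).ker
    have hNn : N.Normal := MonoidHom.normal_ker _
    obtain ⟨s, hs1, hsσ⟩ := hNne
    obtain ⟨t, htN, ht1, htc⟩ := Z_TRV_cen hUnil N hNn
      ⟨⟨s, hNU s hsσ⟩, by rw [MonoidHom.mem_ker]; exact hsσ, fun h => hs1 (congrArg Subtype.val h)⟩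
    refine ⟨t, ?_, fun h => ht1 (Subtype.ext h), ?_⟩
    · rw [MonoidHom.mem_ker] at htN
      exact htN
    · intro u hu
      exact congrArg Subtype.val (htc ⟨u, hu⟩)
  have htU : t ∈ U := hNU t htσ
  obtain ⟨hTT, hTr⟩ := hline t htσ ht1
  by_cases hcase : ∃ u ∈ U, ∀ k : ℕ, 0 < k → ∀ m : ℤ, u ^ k ≠ t ^ m
  · right
    obtain ⟨u, huU, hu⟩ := hcase
    refine ⟨t, u, (htc u huU).symm, hTr, hu, ?_⟩
    have h1 : IsNilpotent (ρ u - 1) := (hUiff u).1 huU
    have h2 := LinearMap.aeval_self_charpoly (ρ u - 1)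
    rw [h1.charpoly_eq_X_pow_finrank] at h2
    simpa using h2
  · left
    have hcase' : ∀ u ∈ U, ∃ k : ℕ, 0 < k ∧ ∃ m : ℤ, u ^ k = t ^ m := by
      intro u hu
      by_contra hcon
      apply hcase
      refine ⟨u, hu, ?_⟩
      intro k hk m hkm
      exact hcon ⟨k, hk, m, hkm⟩
    set T := ρ t - 1 with hTdef
    have hT0 : T ≠ 0 := by
      intro h0
      apply ht1
      apply hinj
      rw [map_one]
      exact sub_eq_zero.1 h0
    have hsm : ∀ a b : K, a • T = b • T → a = b := by
      intro a b hab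
      have h1 : (a - b) • T = 0 := by rw [sub_smul, hab, sub_self]
      rcases smul_eq_zero.1 h1 with h2 | h2
      · exact sub_eq_zero.1 h2
      · exact absurd h2 hT0
    have hex : ∀ u : U, ∃ c : K, ρ (u : Q) = 1 + c • T := by
      intro u
      obtain ⟨k, hk, m, hkm⟩ := hcase' u u.2
      have h1 : IsNilpotent (ρ (u : Q) - 1) := (hUiff u).1 u.2
      have h2 : (1 + (ρ (u : Q) - 1)) ^ k = 1 + (m : K) • T := by
        have h3 : 1 + (ρ (u : Q) - 1) = ρ u := by abel
        rw [h3, ← map_pow, hkm]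
        exact Z_TRV_zpow ρ t hTT m
      have h3 := Z_TRV_root (ρ (u : Q) - 1) T k hk (m : K) h1 hTT h2
      refine ⟨(m : K) / (k : K), ?_⟩
      rw [← h3]
      abel
    choose c hc using hex
    have hcadd : ∀ u u' : U, c (u * u') = c u + c u' := by
      intro u u'
      apply hsm
      have h1 := hc (u * u')
      rw [Subgroup.coe_mul, map_mul, hc u, hc u', add_mul, mul_add, mul_add, smul_mul_smul_comm, hTT,
        smul_zero, one_mul, one_mul, mul_one, add_zero, add_assoc] at h1
      have h2 := add_left_cancel h1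
      rw [add_smul, ← h2, add_comm]
    have hcinj : Function.Injective c := by
      intro u u' h
      apply Subtype.ext
      apply hinj
      rw [hc u, hc u', h]
    -- conjugation
    have hconj : ∀ (g : Q) (x : Q) (a : K), ρ x = 1 + a • T →
        ρ (g * x * g⁻¹) = 1 + a • (ρ g * T * ρ g⁻¹) := by
      intro g x a hx
      rw [map_mul, map_mul, hx, mul_add, add_mul, mul_one, mul_smul_comm, smul_mul_assoc, ← map_mul,
        mul_inv_cancel, map_one]
    have hmemU : ∀ g : Q, g * t * g⁻¹ ∈ U := fun g => hUn.conj_mem t htU g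
    have hψ : ∀ g : Q, ρ g * T * ρ g⁻¹ = c ⟨g * t * g⁻¹, hmemU g⟩ • T := by
      intro g
      have h1 := hconj g t 1 (by rw [one_smul, hTdef]; abel)
      have h2 := hc ⟨g * t * g⁻¹, hmemU g⟩
      rw [one_smul] at h1
      simp only at h2
      rw [h1] at h2
      exact add_left_cancel h2
    let ψ₀ : Q →* K :=
      { toFun := fun g => c ⟨g * t * g⁻¹, hmemU g⟩
        map_one' := by
          apply hsm
          rw [← hψ 1, map_one, inv_one, map_one, one_mul, mul_one, one_smul]
        map_mul' := by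
          intro g h
          apply hsm
          rw [← hψ (g * h), map_mul, _root_.mul_inv_rev, map_mul]
          calc ρ g * ρ h * T * (ρ h⁻¹ * ρ g⁻¹) = ρ g * (ρ h * T * ρ h⁻¹) * ρ g⁻¹ := by
                noncomm_ring
            _ = (c ⟨g * t * g⁻¹, hmemU g⟩ * c ⟨h * t * h⁻¹, hmemU h⟩) • T := by
                rw [hψ h, mul_smul_comm, smul_mul_assoc, hψ g, smul_smul, mul_comm] }
    have hψ₀ : ∀ g : Q, ρ g * T * ρ g⁻¹ = ψ₀ g • T := hψ
    have hψu : ∀ g : Q, ((ψ₀.toHomUnits g : Kˣ) : K) = ψ₀ g := by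
      intro g
      rw [MonoidHom.coe_toHomUnits]
    have hact : ∀ (g : Q) (u u' : U), (u' : Q) = g * u * g⁻¹ →
        c u' = ((ψ₀.toHomUnits g : Kˣ) : K) * c u := by
      intro g u u' huu
      apply hsm
      have h1 := hconj g u (c u) (hc u)
      rw [← huu, hc u', hψ₀ g, smul_smul] at h1
      have h2 := add_left_cancel h1
      rw [h2, hψu, mul_comm]
    by_cases hψ1 : ∃ g₀ : Q, ψ₀.toHomUnits g₀ ≠ 1
    · exfalso
      obtain ⟨f, hf⟩ := hAFF K Q hFG htf U hUn hcU c ψ₀.toHomUnits hcadd hcinj hact hψ1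
        (finrank K V - 1) (by omega)
      exact hnoemb f hf
    · have hcenU : ∀ u ∈ U, u ∈ Subgroup.center Q := by
        intro u hu
        rw [Subgroup.mem_center_iff]
        intro g
        have h1 : ψ₀.toHomUnits g = 1 := by
          by_contra h2
          exact hψ1 ⟨g, h2⟩
        have h2 := hact g ⟨u, hu⟩ ⟨g * u * g⁻¹, hUn.conj_mem u hu g⟩ rfl
        rw [h1, Units.val_one, one_mul] at h2
        have h3 := congrArg Subtype.val (hcinj h2)
        simp only at h3
        calc g * u = g * u * g⁻¹ * g := by group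
          _ = u * g := by rw [h3]
      refine ⟨2, ?_⟩
      rw [eq_top_iff]
      intro x _
      rw [Subgroup.mem_upperCentralSeries_succ_iff]
      intro y
      rw [Subgroup.upperCentralSeries_one]
      apply hcenU
      apply hcU
      exact Subgroup.commutator_mem_commutator (Subgroup.mem_top x) (Subgroup.mem_top y)

end Pool.Agent.PR
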