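import Pool.Agent.helper5.PR.SpecS

/-!
# Project pr: (MP_a2a22c_al), module S-SAR: subgroups of `SL(n, ℤ[1/m])` which contain a subgroup of
finite index of `SL(n, ℤ)` and are unbounded at all primes dividing `m` contain all
`1 + E_ij (k a)` for some `k` prime to `m`.
-/

set_option autoImplicit false

namespace Pool.Agent.PR

open Matrix

section ring
variable {R : Type} [CommRing R] {n : ℕ}

/-- the set of the matrices of the elements of `Δ` -/
def S_SAR_S (Δ : Subgroup (SpecialLinearGroup (Fin n) R)) : Set (Matrix (Fin n) (Fin n) R) :=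
  {M | ∃ x ∈ Δ, (x : Matrix (Fin n) (Fin n) R) = M}

variable {Δ : Subgroup (SpecialLinearGroup (Fin n) R)}

theorem S_SAR_mul {M M' : Matrix (Fin n) (Fin n) R} (h : M ∈ S_SAR_S Δ) (h' : M' ∈ S_SAR_S Δ) :
    M * M' ∈ S_SAR_S Δ := by
  obtain ⟨x, hx, rfl⟩ := h
  obtain ⟨y, hy, rfl⟩ := h'
  exact ⟨x * y, Δ.mul_mem hx hy, Matrix.SpecialLinearGroup.coe_mul x y⟩

theorem S_SAR_inv {M M' : Matrix (Fin n) (Fin n) R} (h : M ∈ S_SAR_S Δ) (hM : M * M' = 1) :
    M' ∈ S_SAR_S Δ := by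
  obtain ⟨x, hx, rfl⟩ := h
  refine ⟨x⁻¹, Δ.inv_mem hx, ?_⟩
  have h1 : (↑(x⁻¹) : Matrix (Fin n) (Fin n) R) * (x : Matrix (Fin n) (Fin n) R) = 1 := by
    rw [← Matrix.SpecialLinearGroup.coe_mul, inv_mul_cancel, Matrix.SpecialLinearGroup.coe_one]
  calc (↑(x⁻¹) : Matrix (Fin n) (Fin n) R) = ↑(x⁻¹) * ((x : Matrix (Fin n) (Fin n) R) * M') := by
        rw [hM, mul_one]
    _ = M' := by rw [← mul_assoc, h1, one_mul]

theorem S_SAR_sub {A : Matrix (Fin n) (Fin n) R} (hA : A * A = 0) (h : 1 + A ∈ S_SAR_S Δ) :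
    1 - A ∈ S_SAR_S Δ := by
  refine S_SAR_inv h ?_
  have : (1 + A) * (1 - A) = 1 - A * A := by noncomm_ring
  rw [this, hA, sub_zero]

theorem S_SAR_neg {A : Matrix (Fin n) (Fin n) R} (hA : A * A = 0) (h : 1 - A ∈ S_SAR_S Δ) :
    1 + A ∈ S_SAR_S Δ := by
  refine S_SAR_inv h ?_
  have : (1 - A) * (1 + A) = 1 - A * A := by noncomm_ring
  rw [this, hA, sub_zero]

theorem S_SAR_comm1 {A B : Matrix (Fin n) (Fin n) R} (hA : A * A = 0) (hB : B * B = 0)
    (hAB : A * B = 0) (h : 1 + A ∈ S_SAR_S Δ) (h' : 1 + B ∈ S_SAR_S Δ) :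
    1 - B * A ∈ S_SAR_S Δ := by
  have h1 : (1 + A) * (1 + B) = 1 + (A + B) := by
    have : (1 + A) * (1 + B) = 1 + (A + B) + A * B := by noncomm_ring
    rw [this, hAB, add_zero]
  have h2 : (1 - A) * (1 - B) = 1 - (A + B) := by
    have : (1 - A) * (1 - B) = 1 - (A + B) + A * B := by noncomm_ring
    rw [this, hAB, add_zero]
  have h3 : (1 + (A + B)) * (1 - (A + B)) = 1 - B * A := by
    have : (1 + (A + B)) * (1 - (A + B)) = 1 - (A * A + A * B + B * B) - B * A := by noncomm_ring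
    rw [this, hA, hB, hAB]
    simp
  rw [← h3, ← h1, ← h2]
  exact S_SAR_mul (S_SAR_mul h h') (S_SAR_mul (S_SAR_sub hA h) (S_SAR_sub hB h'))

theorem S_SAR_comm2 {A B : Matrix (Fin n) (Fin n) R} (hA : A * A = 0) (hB : B * B = 0)
    (hBA : B * A = 0) (h : 1 + A ∈ S_SAR_S Δ) (h' : 1 + B ∈ S_SAR_S Δ) :
    1 + A * B ∈ S_SAR_S Δ := by
  have h1 := S_SAR_comm1 hB hA hBA h' h
  refine S_SAR_neg ?_ h1
  have : A * B * (A * B) = A * (B * A) * B := by noncomm_ring
  rw [this, hBA, mul_zero, zero_mul]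

theorem S_SAR_one : (1 : Matrix (Fin n) (Fin n) R) ∈ S_SAR_S Δ :=
  ⟨1, Δ.one_mem, Matrix.SpecialLinearGroup.coe_one⟩

theorem S_SAR_nsmul {A : Matrix (Fin n) (Fin n) R} (hA : A * A = 0) (h : 1 + A ∈ S_SAR_S Δ) :
    ∀ k : ℕ, 1 + k • A ∈ S_SAR_S Δ
  | 0 => by rw [zero_smul, add_zero]; exact S_SAR_one
  | k + 1 => by
      have h1 := S_SAR_mul h (S_SAR_nsmul hA h k)
      have h2 : (1 + A) * (1 + k • A) = 1 + (k + 1) • A := by
        have : (1 + A) * (1 + k • A) = 1 + (k + 1) • A + k • (A * A) := by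
          have e : (1 + A) * (1 + k • A) = 1 + (A + (k • A + k • (A * A))) := by
            rw [add_mul, one_mul, mul_add, mul_one, mul_smul_comm]
            abel
          rw [e, add_smul, one_smul]
          abel
        rw [this, hA, smul_zero, add_zero]
      rw [← h2]
      exact h1

theorem S_SAR_zsmul {A : Matrix (Fin n) (Fin n) R} (hA : A * A = 0) (h : 1 + A ∈ S_SAR_S Δ)
    (z : ℤ) : 1 + z • A ∈ S_SAR_S Δ := by
  obtain ⟨k, rfl | rfl⟩ := z.eq_nat_or_neg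
  · rw [natCast_zsmul]
    exact S_SAR_nsmul hA h k
  · rw [neg_smul, natCast_zsmul, ← sub_eq_add_neg]
    refine S_SAR_sub ?_ (S_SAR_nsmul hA h k)
    rw [smul_mul_smul_comm, hA, smul_zero]

theorem S_SAR_add {A B : Matrix (Fin n) (Fin n) R} (hAB : A * B = 0) (h : 1 + A ∈ S_SAR_S Δ)
    (h' : 1 + B ∈ S_SAR_S Δ) : 1 + (A + B) ∈ S_SAR_S Δ := by
  have h1 : (1 + A) * (1 + B) = 1 + (A + B) := by
    have : (1 + A) * (1 + B) = 1 + (A + B) + A * B := by noncomm_ring
    rw [this, hAB, add_zero]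
  rw [← h1]
  exact S_SAR_mul h h'

theorem S_SAR_det (v w : Fin n → R) (h : w ⬝ᵥ v = 0) : (1 + vecMulVec v w).det = 1 := by
  rw [vecMulVec_eq (Fin 1), det_one_add_replicateCol_mul_replicateRow, h, add_zero]

theorem S_SAR_vsq (v w : Fin n → R) (h : w ⬝ᵥ v = 0) : vecMulVec v w * vecMulVec v w = 0 := by
  rw [vecMulVec_mul_vecMulVec, h, zero_smul, vecMulVec_zero]

theorem S_SAR_vmul (v w v' w' : Fin n → R) (h : w ⬝ᵥ v' = 0) :
    vecMulVec v w * vecMulVec v' w' = 0 := by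
  rw [vecMulVec_mul_vecMulVec, h, zero_smul, vecMulVec_zero]

end ring

/-- integral transvections -/
theorem S_SAR_int (n m : ℕ) (Δ : Subgroup (SLI n m)) (h : (Δ.comap (incI n m)).FiniteIndex) :
    ∃ N : ℕ, 1 ≤ N ∧ ∀ v w : Fin n → ℤ, w ⬝ᵥ v = 0 →
      1 + vecMulVec (fun i => (N : ZI m) * (v i : ZI m)) (fun j => (w j : ZI m)) ∈ S_SAR_S Δ := by
  set H := Δ.comap (incI n m) with hH
  refine ⟨(H.index).factorial, Nat.factorial_pos _, fun v w hwv => ?_⟩
  let g : SLZ n := ⟨1 + vecMulVec v w, S_SAR_det v w hwv⟩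
  have hg : g ^ (H.index).factorial ∈ H :=
    Subgroup.pow_mem_of_index_ne_zero_of_dvd h.index_ne_zero g
      fun k hk hk2 => Nat.dvd_factorial hk hk2
  have hmem : incI n m (g ^ (H.index).factorial) ∈ Δ := hg
  refine ⟨_, hmem, ?_⟩
  set A : Matrix (Fin n) (Fin n) (ZI m) :=
    vecMulVec (fun i => (v i : ZI m)) (fun j => (w j : ZI m)) with hA
  have hdot : (fun j => (w j : ZI m)) ⬝ᵥ (fun i => (v i : ZI m)) = 0 := by
    have : (((w ⬝ᵥ v : ℤ)) : ZI m) = 0 := by rw [hwv, Int.cast_zero]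
    rw [← this, dotProduct, dotProduct]
    push_cast
    rfl
  have hAA : A * A = 0 := S_SAR_vsq _ _ hdot
  have hgA : ((incI n m g : SLI n m) : Matrix (Fin n) (Fin n) (ZI m)) = 1 + A := by
    refine Matrix.ext fun i j => ?_
    change ((algebraMap ℤ (ZI m)) ((1 + vecMulVec v w) i j) : ZI m) = (1 + A) i j
    rw [Matrix.add_apply, Matrix.add_apply, map_add, hA, vecMulVec_apply, vecMulVec_apply, map_mul]
    congr 1
    by_cases hij : i = j
    · subst hij
      rw [Matrix.one_apply_eq, Matrix.one_apply_eq, map_one]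
    · rw [Matrix.one_apply_ne hij, Matrix.one_apply_ne hij, map_zero]
  have hpow : ∀ k : ℕ, (1 + A) ^ k = 1 + k • A := by
    intro k
    induction k with
    | zero => rw [pow_zero, zero_smul, add_zero]
    | succ k ih =>
      rw [pow_succ, ih]
      have : (1 + k • A) * (1 + A) = 1 + (k + 1) • A + k • (A * A) := by
        simp only [mul_add, add_mul, mul_one, one_mul, smul_mul_assoc, add_smul, one_smul]
        abel
      rw [this, hAA, smul_zero, add_zero]
  rw [map_pow, Matrix.SpecialLinearGroup.coe_pow, hgA, hpow]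
  congr 1
  refine Matrix.ext fun i j => ?_
  rw [Matrix.smul_apply, vecMulVec_apply, hA, vecMulVec_apply, nsmul_eq_mul]
  ring

/-- extraction of an elementary matrix from a transvection -/
theorem S_SAR_ext {n m : ℕ} (Δ : Subgroup (SLI n m)) (N : ℕ)
    (hN : ∀ v w : Fin n → ℤ, w ⬝ᵥ v = 0 →
      1 + vecMulVec (fun i => (N : ZI m) * (v i : ZI m)) (fun j => (w j : ZI m)) ∈ S_SAR_S Δ)
    (v w : Fin n → ZI m) (hwv : w ⬝ᵥ v = 0) (hy : 1 + vecMulVec v w ∈ S_SAR_S Δ) (i k l : Fin n)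
    (hik : i ≠ k) (hli : l ≠ i) (hlk : l ≠ k) (u t : ℤ)
    (hut : (t : ZI m) * v l = (u : ZI m) * v k) :
    1 + Matrix.single i k ((N : ZI m) ^ 3 * t * w i * v k) ∈ S_SAR_S Δ := by
  -- basis vectors
  have hcast : ∀ (a : Fin n) (z : ℤ), (fun b => (((Pi.single a z : Fin n → ℤ) b : ℤ) : ZI m)) =
      (Pi.single a (z : ZI m) : Fin n → ZI m) := by
    intro a z
    funext b
    by_cases hab : b = a
    · subst hab
      rw [Pi.single_eq_same, Pi.single_eq_same]
    · rw [Pi.single_eq_of_ne hab, Pi.single_eq_of_ne hab, Int.cast_zero]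
  have hNcast : ∀ a : Fin n, (fun b => (N : ZI m) * (((Pi.single a 1 : Fin n → ℤ) b : ℤ) : ZI m)) =
      (Pi.single a (N : ZI m) : Fin n → ZI m) := by
    intro a
    funext b
    by_cases hab : b = a
    · subst hab
      rw [Pi.single_eq_same, Pi.single_eq_same, Int.cast_one, mul_one]
    · rw [Pi.single_eq_of_ne hab, Pi.single_eq_of_ne hab, Int.cast_zero, mul_zero]
  have hel : ∀ a b : Fin n, a ≠ b →
      1 + vecMulVec (Pi.single a (N : ZI m) : Fin n → ZI m) (Pi.single b (1 : ZI m)) ∈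
        S_SAR_S Δ := by
    intro a b hab
    have := hN (Pi.single a 1) (Pi.single b 1) (by
      rw [single_dotProduct, Pi.single_eq_of_ne hab.symm, mul_zero])
    rw [hNcast, hcast, Int.cast_one] at this
    exact this
  set W : Fin n → ZI m := (Pi.single k (u : ZI m) : Fin n → ZI m) - Pi.single l (t : ZI m) with hW
  have hWv : W ⬝ᵥ v = 0 := by
    rw [hW, sub_dotProduct, single_dotProduct, single_dotProduct, hut, sub_self]
  have hWi : ∀ a : ZI m, W ⬝ᵥ Pi.single i a = 0 := by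
    intro a
    rw [dotProduct_single, hW, Pi.sub_apply, Pi.single_eq_of_ne hik, Pi.single_eq_of_ne hli.symm,
      sub_zero, zero_mul]
  have hWl : ∀ a : ZI m, W ⬝ᵥ Pi.single l a = -(t * a) := by
    intro a
    rw [dotProduct_single, hW, Pi.sub_apply, Pi.single_eq_of_ne hlk, Pi.single_eq_same,
      zero_sub, neg_mul]
  have hB1 : 1 + vecMulVec (Pi.single i (N : ZI m) : Fin n → ZI m) W ∈ S_SAR_S Δ := by
    have := hN (Pi.single i 1) (Pi.single k u - Pi.single l t) (by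
      rw [dotProduct_single, Pi.sub_apply, Pi.single_eq_of_ne hik, Pi.single_eq_of_ne hli.symm,
        sub_zero, zero_mul])
    rw [hNcast] at this
    have e : (fun j => (((Pi.single k u - Pi.single l t : Fin n → ℤ) j : ℤ) : ZI m)) = W := by
      funext j
      rw [hW, Pi.sub_apply, Pi.sub_apply, Int.cast_sub, ← hcast, ← hcast]
    rw [e] at this
    exact this
  -- first step
  have h1 : 1 + vecMulVec v ((w i * N : ZI m) • W) ∈ S_SAR_S Δ := by
    have := S_SAR_comm2 (S_SAR_vsq v w hwv) (S_SAR_vsq _ W (hWi N)) (S_SAR_vmul _ W v w hWv) hy hB1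
    rw [vecMulVec_mul_vecMulVec, dotProduct_single] at this
    exact this
  -- second step
  have hd1 : ((w i * N : ZI m) • W) ⬝ᵥ v = 0 := by rw [smul_dotProduct, hWv, smul_zero]
  have hd2 : ((w i * N : ZI m) • W) ⬝ᵥ (Pi.single i (N : ZI m)) = 0 := by
    rw [smul_dotProduct, hWi, smul_zero]
  have hki : (Pi.single k (1 : ZI m) : Fin n → ZI m) ⬝ᵥ (Pi.single i (N : ZI m)) = 0 := by
    rw [single_dotProduct, Pi.single_eq_of_ne hik.symm, mul_zero]
  have h2 : 1 - vecMulVec (Pi.single i (N : ZI m) : Fin n → ZI m)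
      ((v k * (w i * N) : ZI m) • W) ∈ S_SAR_S Δ := by
    have := S_SAR_comm1 (S_SAR_vsq v _ hd1) (S_SAR_vsq _ _ hki)
      (S_SAR_vmul v _ _ (Pi.single k (1 : ZI m)) hd2) h1 (hel i k hik)
    rw [vecMulVec_mul_vecMulVec, single_dotProduct, one_mul, smul_smul] at this
    exact this
  have hd3 : ((v k * (w i * N) : ZI m) • W) ⬝ᵥ (Pi.single i (N : ZI m)) = 0 := by
    rw [smul_dotProduct, hWi, smul_zero]
  have h3 := S_SAR_neg (S_SAR_vsq _ _ hd3) h2
  -- third step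
  have hkl : (Pi.single k (1 : ZI m) : Fin n → ZI m) ⬝ᵥ (Pi.single l (N : ZI m)) = 0 := by
    rw [single_dotProduct, Pi.single_eq_of_ne hlk.symm, mul_zero]
  have h4 := S_SAR_comm2 (S_SAR_vsq _ _ hd3) (S_SAR_vsq _ _ hkl) (S_SAR_vmul _ _ _ _ hki) h3
    (hel l k hlk)
  rw [vecMulVec_mul_vecMulVec, smul_dotProduct, hWl] at h4
  have h5 : vecMulVec (Pi.single i (N : ZI m) : Fin n → ZI m)
      (((v k * (w i * N)) • -((t : ZI m) * N) : ZI m) • (Pi.single k (1 : ZI m) : Fin n → ZI m)) =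
      -Matrix.single i k ((N : ZI m) ^ 3 * t * w i * v k) := by
    refine Matrix.ext fun a b => ?_
    rw [vecMulVec_apply, Matrix.neg_apply, Pi.smul_apply]
    by_cases ha : a = i
    · by_cases hb : b = k
      · subst ha hb
        rw [Pi.single_eq_same, Pi.single_eq_same, Matrix.single_apply_same]
        simp only [smul_eq_mul]
        ring
      · rw [Pi.single_eq_of_ne hb, smul_zero, mul_zero,
          Matrix.single_apply_of_ne (h := fun h => hb h.2.symm), neg_zero]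
    · rw [Pi.single_eq_of_ne ha, zero_mul,
        Matrix.single_apply_of_ne (h := fun h => ha h.1.symm), neg_zero]
  rw [h5, ← sub_eq_add_neg] at h4
  refine S_SAR_neg ?_ h4
  rw [Matrix.single_mul_single_of_ne _ _ _ _ hik.symm]


/-! ### elementary matrices over the rationals -/

/-- `1 + a E_ij ∈ Δ` -/
def S_SAR_P {n m : ℕ} (Δ : Subgroup (SLI n m)) (i j : Fin n) (a : ℚ) : Prop :=
  ∃ h : a ∈ ZI m, 1 + Matrix.single i j (⟨a, h⟩ : ZI m) ∈ S_SAR_S Δ

theorem S_SAR_P_add {n m : ℕ} {Δ : Subgroup (SLI n m)} {i j : Fin n} {a b : ℚ} (hij : i ≠ j)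
    (ha : S_SAR_P Δ i j a) (hb : S_SAR_P Δ i j b) : S_SAR_P Δ i j (a + b) := by
  obtain ⟨h1, h2⟩ := ha
  obtain ⟨h3, h4⟩ := hb
  refine ⟨Subalgebra.add_mem _ h1 h3, ?_⟩
  have h5 := S_SAR_add (Matrix.single_mul_single_of_ne _ _ _ _ hij.symm _) h2 h4
  rw [← Matrix.single_add] at h5
  exact h5

theorem S_SAR_P_zsmul {n m : ℕ} {Δ : Subgroup (SLI n m)} {i j : Fin n} {a : ℚ} (hij : i ≠ j)
    (z : ℤ) (ha : S_SAR_P Δ i j a) : S_SAR_P Δ i j (z * a) := by
  obtain ⟨h1, h2⟩ := ha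
  have h3 : (z : ℚ) * a ∈ ZI m := by
    rw [← zsmul_eq_mul]
    exact Subalgebra.zsmul_mem _ h1 z
  refine ⟨h3, ?_⟩
  have h5 := S_SAR_zsmul (Matrix.single_mul_single_of_ne _ _ _ _ hij.symm _) h2 z
  have h6 : z • Matrix.single i j (⟨a, h1⟩ : ZI m) = Matrix.single i j (⟨(z : ℚ) * a, h3⟩ : ZI m) := by
    rw [Matrix.smul_single]
    have e : z • (⟨a, h1⟩ : ZI m) = (⟨(z : ℚ) * a, h3⟩ : ZI m) := by
      apply Subtype.ext
      change z • a = (z : ℚ) * a
      rw [zsmul_eq_mul]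
    rw [e]
  rw [← h6]
  exact h5

theorem S_SAR_P_mul {n m : ℕ} {Δ : Subgroup (SLI n m)} {i j k : Fin n} {a b : ℚ} (hij : i ≠ j)
    (hjk : j ≠ k) (hik : i ≠ k) (ha : S_SAR_P Δ i j a) (hb : S_SAR_P Δ j k b) :
    S_SAR_P Δ i k (a * b) := by
  obtain ⟨h1, h2⟩ := ha
  obtain ⟨h3, h4⟩ := hb
  refine ⟨Subalgebra.mul_mem _ h1 h3, ?_⟩
  have h5 := S_SAR_comm2 (Matrix.single_mul_single_of_ne _ _ _ _ hij.symm _)
    (Matrix.single_mul_single_of_ne _ _ _ _ hjk.symm _)
    (Matrix.single_mul_single_of_ne _ _ _ _ hik.symm _) h2 h4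
  rw [Matrix.single_mul_single_same] at h5
  exact h5

/-- the three moves -/
theorem S_SAR_moves {n m : ℕ} (hn : 3 ≤ n) {Δ : Subgroup (SLI n m)} {N : ℕ}
    (hN : ∀ i j : Fin n, i ≠ j → S_SAR_P Δ i j N) {i k : Fin n} (hik : i ≠ k) {c : ℚ}
    (hc : S_SAR_P Δ i k c) (p p' : Fin n) (hp : p ≠ p') : S_SAR_P Δ p p' ((N : ℚ) ^ 3 * c) := by
  have mR : ∀ (i k j : Fin n) (c : ℚ), i ≠ k → j ≠ i → j ≠ k → S_SAR_P Δ i k c →
      S_SAR_P Δ i j (N * c) := by
    intro i k j c hik hji hjk h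
    rw [mul_comm]
    exact S_SAR_P_mul hik hjk.symm hji.symm h (hN k j hjk.symm)
  have mL : ∀ (i k j : Fin n) (c : ℚ), i ≠ k → j ≠ i → j ≠ k → S_SAR_P Δ i k c →
      S_SAR_P Δ j k (N * c) := by
    intro i k j c hik hji hjk h
    exact S_SAR_P_mul hji hik hjk (hN j i hji) h
  have sc : ∀ (i k : Fin n) (c : ℚ), i ≠ k → S_SAR_P Δ i k c → S_SAR_P Δ i k (N * c) := by
    intro i k c hik h
    have := S_SAR_P_zsmul hik (N : ℤ) h
    rw [Int.cast_natCast] at this
    exact this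
  have e3 : (N : ℚ) ^ 3 * c = N * (N * (N * c)) := by ring
  rw [e3]
  by_cases hpi : p' = i
  · subst hpi
    obtain ⟨j, hj1, hj2⟩ : ∃ j : Fin n, j ≠ p' ∧ j ≠ k := by
      by_contra hcon
      push Not at hcon
      have h1 : (Finset.univ : Finset (Fin n)) ⊆ {p', k} := by
        intro j _
        by_cases hj : j = p'
        · simp [hj]
        · simp [hcon j hj]
      have h2 := Finset.card_le_card h1
      have h3 : Finset.card ({p', k} : Finset (Fin n)) ≤ 2 := Finset.card_le_two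
      rw [Finset.card_univ, Fintype.card_fin] at h2
      omega
    have h1 := mL p' k j c hik hj1 hj2 hc
    have h2 := mR j k p' (N * c) hj2 hj1.symm hik h1
    by_cases hpj : p = j
    · subst hpj
      exact sc p p' _ hp h2
    · exact mL j p' p _ hj1 hpj hp h2
  · have h1 : S_SAR_P Δ i p' (N * c) := by
      by_cases hpk : p' = k
      · subst hpk
        exact sc i p' c hik hc
      · exact mR i k p' c hik hpi hpk hc
    have h2 : S_SAR_P Δ p p' (N * (N * c)) := by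
      by_cases hpi' : p = i
      · subst hpi'
        exact sc p p' _ hp h1
      · exact mL i p' p _ (Ne.symm hpi) hpi' hp h1
    exact sc p p' _ hp h2

/-! ### the valuation arguments -/

section val
variable {q : ℕ} [hq : Fact q.Prime]

theorem S_SAR_den1 {s : ℕ} (hs : 1 ≤ s) (c : ℚ) (h : q ^ s ∣ c.den) :
    (q : ℚ) ^ s ≤ padicNorm q c := by
  have hq0 : (0 : ℚ) < q := by exact_mod_cast hq.out.pos
  have h1 : padicNorm q (c.num : ℚ) = 1 := by
    rw [padicNorm.int_eq_one_iff]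
    intro h2
    have h3 : q ∣ c.den := dvd_trans (dvd_pow_self q (by omega)) h
    have h4 : q ∣ c.num.natAbs := Int.natCast_dvd.mp h2
    have h5 := Nat.dvd_gcd h4 h3
    rw [c.reduced] at h5
    exact hq.out.one_lt.ne' (Nat.dvd_one.mp h5)
  have h2 : padicNorm q (c.den : ℚ) ≤ (q : ℚ) ^ (-(s : ℤ)) := by
    have : ((q ^ s : ℕ) : ℤ) ∣ (c.den : ℤ) := by exact_mod_cast h
    have h3 := (padicNorm.dvd_iff_norm_le (p := q) (n := s) (z := (c.den : ℤ))).mp this
    rw [Int.cast_natCast] at h3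
    exact h3
  have h3 : padicNorm q c = padicNorm q (c.num : ℚ) / padicNorm q (c.den : ℚ) := by
    conv_lhs => rw [← Rat.num_div_den c]
    rw [padicNorm.div]
  have h4 : 0 < padicNorm q (c.den : ℚ) := by
    have h5 : padicNorm q (c.den : ℚ) ≠ 0 := padicNorm.nonzero (by exact_mod_cast c.den_ne_zero)
    exact lt_of_le_of_ne (padicNorm.nonneg _) h5.symm
  rw [h3, h1, le_div_iff₀ h4]
  calc (q : ℚ) ^ s * padicNorm q (c.den : ℚ) ≤ (q : ℚ) ^ s * (q : ℚ) ^ (-(s : ℤ)) :=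
        mul_le_mul_of_nonneg_left h2 (by positivity)
    _ = 1 := by rw [_root_.zpow_neg, zpow_natCast, mul_inv_cancel₀ (by positivity)]

theorem S_SAR_den2 {s : ℕ} (c : ℚ) (h : (q : ℚ) ^ s ≤ padicNorm q c) : q ^ s ∣ c.den := by
  have hq0 : (0 : ℚ) < q := by exact_mod_cast hq.out.pos
  have h3 : padicNorm q c = padicNorm q (c.num : ℚ) / padicNorm q (c.den : ℚ) := by
    conv_lhs => rw [← Rat.num_div_den c]
    rw [padicNorm.div]
  have h4 : 0 < padicNorm q (c.den : ℚ) := by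
    have h5 : padicNorm q (c.den : ℚ) ≠ 0 := padicNorm.nonzero (by exact_mod_cast c.den_ne_zero)
    exact lt_of_le_of_ne (padicNorm.nonneg _) h5.symm
  rw [h3, le_div_iff₀ h4] at h
  have h5 : padicNorm q (c.num : ℚ) ≤ 1 := padicNorm.of_int c.num
  have h6 : padicNorm q ((c.den : ℤ) : ℚ) ≤ (q : ℚ) ^ (-(s : ℤ)) := by
    rw [_root_.zpow_neg, zpow_natCast, Int.cast_natCast, ← one_div, le_div_iff₀ (by positivity), mul_comm]
    exact h.trans h5
  have h7 := (padicNorm.dvd_iff_norm_le (p := q) (n := s) (z := (c.den : ℤ))).mpr h6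
  exact_mod_cast h7

theorem S_SAR_prod {ι : Type} (s : Finset ι) (f : ι → ℚ) :
    padicNorm q (∏ i ∈ s, f i) = ∏ i ∈ s, padicNorm q (f i) := by
  classical
  induction s using Finset.induction_on with
  | empty => rw [Finset.prod_empty, Finset.prod_empty, padicNorm.one]
  | insert a s ha ih => rw [Finset.prod_insert ha, Finset.prod_insert ha, padicNorm.mul, ih]

/-- a row of norm at least one -/
theorem S_SAR_row {n : ℕ} (Y : Matrix (Fin n) (Fin n) ℚ) (hY : Y.det = 1) (a : Fin n)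
    (h : ∀ b, b ≠ a → ∀ i, padicNorm q (Y b i) ≤ 1) : ∃ i, 1 ≤ padicNorm q (Y a i) := by
  by_contra hcon
  push Not at hcon
  have h1 : padicNorm q Y.det < 1 := by
    rw [Matrix.det_apply]
    refine padicNorm.sum_lt ⟨1, Finset.mem_univ _⟩ fun σ _ => ?_
    have h2 : padicNorm q (Equiv.Perm.sign σ • ∏ i, Y (σ i) i) = ∏ i, padicNorm q (Y (σ i) i) := by
      rw [← S_SAR_prod]
      rcases Int.units_eq_one_or (Equiv.Perm.sign σ) with h3 | h3
      · rw [h3, one_smul]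
      · rw [h3, Units.neg_smul, one_smul, padicNorm.neg]
    rw [h2, ← Finset.mul_prod_erase _ _ (Finset.mem_univ (σ.symm a))]
    have h4 : padicNorm q (Y (σ (σ.symm a)) (σ.symm a)) < 1 := by
      rw [Equiv.apply_symm_apply]
      exact hcon _
    have h5 : ∏ i ∈ Finset.univ.erase (σ.symm a), padicNorm q (Y (σ i) i) ≤ 1 := by
      refine Finset.prod_le_one (fun i _ => padicNorm.nonneg _) fun i hi => ?_
      refine h (σ i) ?_ i
      intro h6
      rw [Finset.mem_erase] at hi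
      exact hi.1 (by rw [← h6, Equiv.symm_apply_apply])
    have h6 : 0 ≤ ∏ i ∈ Finset.univ.erase (σ.symm a), padicNorm q (Y (σ i) i) :=
      Finset.prod_nonneg fun i _ => padicNorm.nonneg _
    have h7 := padicNorm.nonneg (p := q) (Y (σ (σ.symm a)) (σ.symm a))
    nlinarith
  rw [hY, padicNorm.one] at h1
  exact lt_irrefl _ h1

/-- a large product -/
theorem S_SAR_val {n : ℕ} (hn : 2 ≤ n) (X Y : Matrix (Fin n) (Fin n) ℚ) (hYX : Y * X = 1)
    (hY : Y.det = 1) (r : ℕ) (i0 a0 : Fin n) (h : (q : ℚ) ^ (2 * r) ≤ padicNorm q (X i0 a0)) :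
    ∃ a b k i, a ≠ b ∧ (q : ℚ) ^ r ≤ padicNorm q (Y b i) * padicNorm q (X k a) := by
  have hq0 : (0 : ℚ) < q := by exact_mod_cast hq.out.pos
  have hq1 : (1 : ℚ) ≤ (q : ℚ) ^ r := one_le_pow₀ (by exact_mod_cast hq.out.one_lt.le)
  by_cases hc : ∃ b i, b ≠ a0 ∧ ((q : ℚ) ^ r)⁻¹ ≤ padicNorm q (Y b i)
  · obtain ⟨b, i, hb, hc⟩ := hc
    refine ⟨a0, b, i0, i, hb.symm, ?_⟩
    calc (q : ℚ) ^ r = ((q : ℚ) ^ r)⁻¹ * (q : ℚ) ^ (2 * r) := by
          rw [two_mul, pow_add, inv_mul_cancel_left₀ (by positivity)]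
      _ ≤ _ := mul_le_mul hc h (by positivity) (padicNorm.nonneg _)
  · push Not at hc
    obtain ⟨b, hb⟩ : ∃ b : Fin n, b ≠ a0 := by
      have : Nontrivial (Fin n) := Fin.nontrivial_iff_two_le.mpr hn
      exact exists_ne a0
    obtain ⟨i, hi⟩ := S_SAR_row (q := q) Y hY a0 fun b hb i =>
      (hc b i hb).le.trans (inv_le_one_of_one_le₀ hq1)
    have h1 : ∃ l, 1 ≤ padicNorm q (Y b l * X l b) := by
      by_contra hcon
      push Not at hcon
      have h2 : padicNorm q (∑ l, Y b l * X l b) < 1 :=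
        padicNorm.sum_lt ⟨b, Finset.mem_univ _⟩ fun l _ => hcon l
      have h3 : ∑ l, Y b l * X l b = 1 := by
        rw [← Matrix.mul_apply, hYX, Matrix.one_apply_eq]
      rw [h3, padicNorm.one] at h2
      exact lt_irrefl _ h2
    obtain ⟨l, hl⟩ := h1
    refine ⟨b, a0, l, i, hb, ?_⟩
    rw [padicNorm.mul] at hl
    have h4 : (q : ℚ) ^ r ≤ padicNorm q (X l b) := by
      have h5 := hc b l hb
      have h6 : 1 ≤ ((q : ℚ) ^ r)⁻¹ * padicNorm q (X l b) :=
        hl.trans (mul_le_mul_of_nonneg_right h5.le (padicNorm.nonneg _))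
      rw [← div_eq_inv_mul, le_div_iff₀ (by positivity), one_mul] at h6
      exact h6
    calc (q : ℚ) ^ r = 1 * (q : ℚ) ^ r := (one_mul _).symm
      _ ≤ _ := mul_le_mul hi h4 (by positivity) (padicNorm.nonneg _)

/-- maximal entries -/
theorem S_SAR_max {n : ℕ} (w v : Fin n → ℚ) (hwv : w ⬝ᵥ v = 0) (c : ℚ) (hc : 0 < c) (i0 k0 : Fin n)
    (h : c ≤ padicNorm q (w i0) * padicNorm q (v k0)) :
    ∃ i k, i ≠ k ∧ (∀ l, padicNorm q (v l) ≤ padicNorm q (v k)) ∧
      c ≤ padicNorm q (w i) * padicNorm q (v k) := by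
  have : Nonempty (Fin n) := ⟨i0⟩
  obtain ⟨k, hk⟩ := Finite.exists_max fun l => padicNorm q (v l)
  have h1 : c ≤ padicNorm q (w i0) * padicNorm q (v k) :=
    h.trans (mul_le_mul_of_nonneg_left (hk k0) (padicNorm.nonneg _))
  by_cases hik : i0 = k
  · subst hik
    have h2 : ∃ l, l ≠ i0 ∧ padicNorm q (w i0 * v i0) ≤ padicNorm q (w l * v l) := by
      by_contra hcon
      push Not at hcon
      have h3 : w i0 * v i0 = -∑ l ∈ Finset.univ.erase i0, w l * v l := by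
        rw [eq_neg_iff_add_eq_zero, Finset.add_sum_erase _ (fun l => w l * v l) (Finset.mem_univ _)]
        exact hwv
      have h4 : 0 < padicNorm q (w i0 * v i0) := by rw [padicNorm.mul]; exact hc.trans_le h1
      have h5 : padicNorm q (∑ l ∈ Finset.univ.erase i0, w l * v l) < padicNorm q (w i0 * v i0) := by
        rcases (Finset.univ.erase i0).eq_empty_or_nonempty with h6 | h6
        · rw [h6, Finset.sum_empty, padicNorm.zero]
          exact h4
        · exact padicNorm.sum_lt h6 fun l hl => hcon l (Finset.ne_of_mem_erase hl)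
      rw [← padicNorm.neg, ← h3] at h5
      exact lt_irrefl _ h5
    obtain ⟨l, hl, h3⟩ := h2
    refine ⟨l, i0, hl, hk, ?_⟩
    rw [padicNorm.mul, padicNorm.mul] at h3
    exact h1.trans (h3.trans (mul_le_mul_of_nonneg_left (hk l) (padicNorm.nonneg _)))
  · exact ⟨i0, k, hik, hk, h1⟩

end val


/-! ### assembly -/

/-- an elementary matrix with a large power of `q` in the denominator -/
theorem S_SAR_q {n m : ℕ} (hn : 3 ≤ n) (Δ : Subgroup (SLI n m)) (N : ℕ)
    (hN : ∀ v w : Fin n → ℤ, w ⬝ᵥ v = 0 →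
      1 + vecMulVec (fun i => (N : ZI m) * (v i : ZI m)) (fun j => (w j : ZI m)) ∈ S_SAR_S Δ)
    (q : ℕ) (hq : q.Prime) (r : ℕ) (hr : 1 ≤ r)
    (hu : ∃ x ∈ Δ, ∃ i j, q ^ (2 * r) ∣ (ratM x i j).den) :
    ∃ (i k : Fin n) (c : ℚ), i ≠ k ∧ q ^ r ∣ c.den ∧ S_SAR_P Δ i k ((N : ℚ) ^ 4 * c) := by
  have : Fact q.Prime := ⟨hq⟩
  have hq0 : (0 : ℚ) < q := by exact_mod_cast hq.pos
  obtain ⟨x, hx, i0, a0, hd⟩ := hu
  have hXX : ratM x⁻¹ * ratM x = 1 := by
    have h1 : (↑(x⁻¹) : Matrix (Fin n) (Fin n) (ZI m)) * (x : Matrix (Fin n) (Fin n) (ZI m)) = 1 := by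
      rw [← Matrix.SpecialLinearGroup.coe_mul, inv_mul_cancel, Matrix.SpecialLinearGroup.coe_one]
    have h2 := congrArg (fun M => M.map (algebraMap (ZI m) ℚ)) h1
    simp only [Matrix.map_mul, Matrix.map_one _ (map_zero (algebraMap (ZI m) ℚ))
      (map_one (algebraMap (ZI m) ℚ))] at h2
    exact h2
  have hY : (ratM x⁻¹).det = 1 := by
    have h1 : (↑(x⁻¹) : Matrix (Fin n) (Fin n) (ZI m)).det = 1 := Matrix.SpecialLinearGroup.det_coe _
    have h2 := congrArg (algebraMap (ZI m) ℚ) h1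
    rw [RingHom.map_det, map_one] at h2
    exact h2
  obtain ⟨a, b, k1, i1, hab, h1⟩ := S_SAR_val (q := q) (by omega) (ratM x) (ratM x⁻¹) hXX hY r i0 a0
    (S_SAR_den1 (by omega) _ hd)
  set v : Fin n → ℚ := fun l => ratM x l a with hv
  set w : Fin n → ℚ := fun l => ratM x⁻¹ b l with hw
  have hwv : w ⬝ᵥ v = 0 := by
    have h2 : (ratM x⁻¹ * ratM x) b a = 0 := by rw [hXX, Matrix.one_apply_ne hab.symm]
    rw [Matrix.mul_apply] at h2
    exact h2
  obtain ⟨i, k, hik, hmax, h2⟩ := S_SAR_max (q := q) w v hwv ((q : ℚ) ^ r) (by positivity) i1 k1 h1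
  obtain ⟨l, hl1, hl2⟩ : ∃ j : Fin n, j ≠ i ∧ j ≠ k := by
    by_contra hcon
    push Not at hcon
    have h1 : (Finset.univ : Finset (Fin n)) ⊆ {i, k} := by
      intro j _
      by_cases hj : j = i
      · simp [hj]
      · simp [hcon j hj]
    have h2 := Finset.card_le_card h1
    have h3 : Finset.card ({i, k} : Finset (Fin n)) ≤ 2 := Finset.card_le_two
    rw [Finset.card_univ, Fintype.card_fin] at h2
    omega
  -- the ratio of two entries
  have hvk : 0 < padicNorm q (v k) := by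
    have h3 : 0 < padicNorm q (w i) * padicNorm q (v k) := lt_of_lt_of_le (by positivity) h2
    refine lt_of_le_of_ne (padicNorm.nonneg _) fun h4 => ?_
    rw [← h4, mul_zero] at h3
    exact lt_irrefl _ h3
  have hvk0 : v k ≠ 0 := by
    intro h3
    rw [h3, padicNorm.zero] at hvk
    exact lt_irrefl _ hvk
  set ρ : ℚ := v l / v k with hρ
  have hρ1 : padicNorm q ρ ≤ 1 := by
    rw [hρ, padicNorm.div, div_le_one hvk]
    exact hmax l
  have ht : padicNorm q (ρ.den : ℚ) = 1 := by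
    have h3 : ¬ q ^ 1 ∣ ρ.den := by
      intro h4
      have h5 := S_SAR_den1 (le_refl 1) ρ h4
      rw [pow_one] at h5
      have h6 : (1 : ℚ) < q := by exact_mod_cast hq.one_lt
      linarith
    rw [pow_one] at h3
    exact padicNorm.nat_eq_one_iff _ |>.mpr h3
  -- the transvection
  have hel : 1 + vecMulVec (Pi.single a (N : ZI m) : Fin n → ZI m) (Pi.single b (1 : ZI m)) ∈
      S_SAR_S Δ := by
    have h3 := hN (Pi.single a 1) (Pi.single b 1) (by
      rw [single_dotProduct, Pi.single_eq_of_ne hab.symm, mul_zero])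
    have e1 : (fun j => (N : ZI m) * (((Pi.single a 1 : Fin n → ℤ) j : ℤ) : ZI m)) =
        (Pi.single a (N : ZI m) : Fin n → ZI m) := by
      funext j
      by_cases hj : j = a
      · subst hj
        rw [Pi.single_eq_same, Pi.single_eq_same, Int.cast_one, mul_one]
      · rw [Pi.single_eq_of_ne hj, Pi.single_eq_of_ne hj, Int.cast_zero, mul_zero]
    have e2 : (fun j => (((Pi.single b 1 : Fin n → ℤ) j : ℤ) : ZI m)) =
        (Pi.single b (1 : ZI m) : Fin n → ZI m) := by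
      funext j
      by_cases hj : j = b
      · subst hj
        rw [Pi.single_eq_same, Pi.single_eq_same, Int.cast_one]
      · rw [Pi.single_eq_of_ne hj, Pi.single_eq_of_ne hj, Int.cast_zero]
    rw [e1, e2] at h3
    exact h3
  set xm : Matrix (Fin n) (Fin n) (ZI m) := (x : Matrix (Fin n) (Fin n) (ZI m)) with hxm
  set xi : Matrix (Fin n) (Fin n) (ZI m) := (↑(x⁻¹) : Matrix (Fin n) (Fin n) (ZI m)) with hxi
  have hxx : xm * xi = 1 := by
    rw [hxm, hxi, ← Matrix.SpecialLinearGroup.coe_mul, mul_inv_cancel,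
      Matrix.SpecialLinearGroup.coe_one]
  have hconj : 1 + vecMulVec (fun j => (N : ZI m) * xm j a) (fun j => xi b j) ∈ S_SAR_S Δ := by
    have h3 : xm * (1 + vecMulVec (Pi.single a (N : ZI m) : Fin n → ZI m)
        (Pi.single b (1 : ZI m))) * xi ∈ S_SAR_S Δ :=
      S_SAR_mul (S_SAR_mul ⟨x, hx, rfl⟩ hel) ⟨x⁻¹, Δ.inv_mem hx, rfl⟩
    have h4 : xm * (1 + vecMulVec (Pi.single a (N : ZI m) : Fin n → ZI m)
        (Pi.single b (1 : ZI m))) * xi =
        1 + vecMulVec (fun j => (N : ZI m) * xm j a) (fun j => xi b j) := by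
      rw [mul_add, mul_one, add_mul, hxx, mul_vecMulVec, vecMulVec_mul]
      congr 1
      refine Matrix.ext fun c d => ?_
      rw [vecMulVec_apply, vecMulVec_apply, mulVec_single, single_vecMul]
      simp [mul_comm]
    rw [← h4]
    exact h3
  have hcv : ∀ j, (((xm j a : ZI m)) : ℚ) = v j := fun j => rfl
  have hcw : ∀ j, (((xi b j : ZI m)) : ℚ) = w j := fun j => rfl
  have hdot : (fun j => xi b j) ⬝ᵥ (fun j => (N : ZI m) * xm j a) = 0 := by
    have hxx' : xi * xm = 1 := by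
      rw [hxm, hxi, ← Matrix.SpecialLinearGroup.coe_mul, inv_mul_cancel,
        Matrix.SpecialLinearGroup.coe_one]
    have h3 : (xi * xm) b a = 0 := by rw [hxx', Matrix.one_apply_ne hab.symm]
    rw [Matrix.mul_apply] at h3
    rw [dotProduct]
    calc ∑ j, xi b j * ((N : ZI m) * xm j a) = (N : ZI m) * ∑ j, xi b j * xm j a := by
          rw [Finset.mul_sum]
          exact Finset.sum_congr rfl fun j _ => by ring
      _ = 0 := by rw [h3, mul_zero]
  have hut : (((ρ.den : ℤ)) : ZI m) * ((N : ZI m) * xm l a) = ((ρ.num : ℤ) : ZI m) * ((N : ZI m) * xm k a) := by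
    apply Subtype.ext
    push_cast
    rw [hcv, hcv]
    have h3 : (ρ.den : ℚ) * ρ = ρ.num := by rw [mul_comm, Rat.mul_den_eq_num]
    have h4 : v l = ρ * v k := by rw [hρ, div_mul_cancel₀ _ hvk0]
    rw [h4, ← h3]
    ring
  have hfin := S_SAR_ext Δ N hN (fun j => (N : ZI m) * xm j a) (fun j => xi b j) hdot hconj i k l hik
    hl1 hl2 ρ.num ρ.den hut
  refine ⟨i, k, (ρ.den : ℚ) * w i * v k, hik, ?_, ?_⟩
  · refine S_SAR_den2 _ ?_
    rw [padicNorm.mul, padicNorm.mul, ht, one_mul]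
    exact h2
  · have h3 : ((((N : ZI m) ^ 3 * ((ρ.den : ℤ) : ZI m) * xi b i * ((N : ZI m) * xm k a) : ZI m)) : ℚ) =
        (N : ℚ) ^ 4 * ((ρ.den : ℚ) * w i * v k) := by
      push_cast
      rw [hcv, hcw]
      ring
    refine ⟨?_, ?_⟩
    · rw [← h3]
      exact Subtype.property _
    · have h4 : ∀ h : (N : ℚ) ^ 4 * ((ρ.den : ℚ) * w i * v k) ∈ ZI m,
          (⟨(N : ℚ) ^ 4 * ((ρ.den : ℚ) * w i * v k), h⟩ : ZI m) =
            (N : ZI m) ^ 3 * ((ρ.den : ℤ) : ZI m) * xi b i * ((N : ZI m) * xm k a) :=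
        fun h => Subtype.ext h3.symm
      rw [h4]
      exact hfin

theorem S_SAR_fac (m : ℕ) (C : ℕ) (hC : 1 ≤ C) :
    ∃ k m' K : ℕ, C = k * m' ∧ 1 ≤ k ∧ 1 ≤ m' ∧ k.Coprime m ∧ m' ∣ m ^ K := by
  induction C using Nat.strong_induction_on with
  | _ C ih =>
    by_cases hg : Nat.gcd C m = 1
    · exact ⟨C, 1, 0, (mul_one C).symm, hC, le_refl 1, hg, one_dvd _⟩
    · have hg0 : 0 < Nat.gcd C m := Nat.gcd_pos_of_pos_left _ hC
      have hg1 : 1 < Nat.gcd C m := by omega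
      have hdv : Nat.gcd C m ∣ C := Nat.gcd_dvd_left _ _
      have h1 : C / Nat.gcd C m < C := Nat.div_lt_self hC hg1
      have h2 : 1 ≤ C / Nat.gcd C m := Nat.div_pos (Nat.le_of_dvd hC hdv) hg0
      obtain ⟨k, m', K, h3, h4, h5, h6, h7⟩ := ih _ h1 h2
      refine ⟨k, m' * Nat.gcd C m, K + 1, ?_, h4, Nat.mul_pos h5 hg0, h6, ?_⟩
      · rw [← mul_assoc, ← h3, Nat.div_mul_cancel hdv]
      · rw [pow_succ]
        exact Nat.mul_dvd_mul h7 (Nat.gcd_dvd_right _ _)

/-- partial fractions -/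
theorem S_SAR_pf {m : ℕ} (P : ℚ → Prop) (C : ℕ) (hadd : ∀ a b, P a → P b → P (a + b))
    (hsm : ∀ (z : ℤ) a, P a → P (z * a)) (h0 : P C)
    (hq : ∀ q : ℕ, q.Prime → q ∣ m → ∀ r : ℕ, P ((C : ℚ) / (q : ℚ) ^ r)) (K : ℕ) (D : ℕ)
    (hD : 1 ≤ D) (hDm : D ∣ m ^ K) (z : ℤ) : P ((C : ℚ) * z / D) := by
  induction D using Nat.recOnPosPrimePosCoprime generalizing z with
  | prime_pow q s hqp hs =>
    have h1 : q ∣ m := hqp.dvd_of_dvd_pow (dvd_trans (dvd_pow_self q (by omega)) hDm)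
    have h2 := hsm z _ (hq q hqp h1 s)
    have h3 : (C : ℚ) * z / ((q ^ s : ℕ) : ℚ) = z * ((C : ℚ) / (q : ℚ) ^ s) := by
      push_cast
      ring
    rw [h3]
    exact h2
  | zero => omega
  | one =>
    have h2 := hsm z _ h0
    have h3 : (C : ℚ) * z / ((1 : ℕ) : ℚ) = z * (C : ℚ) := by
      push_cast
      ring
    rw [h3]
    exact h2
  | coprime a b ha hb hab iha ihb =>
    have ha' : a ∣ m ^ K := dvd_trans (dvd_mul_right a b) hDm
    have hb' : b ∣ m ^ K := dvd_trans (dvd_mul_left b a) hDm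
    have hbz : (a : ℤ) * Nat.gcdA a b + (b : ℤ) * Nat.gcdB a b = 1 := by
      rw [← Nat.gcd_eq_gcd_ab, hab.gcd_eq_one, Nat.cast_one]
    have h1 := iha (by omega) ha' (z * Nat.gcdB a b)
    have h2 := ihb (by omega) hb' (z * Nat.gcdA a b)
    have h3 : (C : ℚ) * z / ((a * b : ℕ) : ℚ) =
        (C : ℚ) * ((z * Nat.gcdB a b : ℤ) : ℚ) / a + (C : ℚ) * ((z * Nat.gcdA a b : ℤ) : ℚ) / b := by
      have ha0 : (a : ℚ) ≠ 0 := by
        have : a ≠ 0 := by omega
        exact_mod_cast this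
      have hb0 : (b : ℚ) ≠ 0 := by
        have : b ≠ 0 := by omega
        exact_mod_cast this
      have hbq : (a : ℚ) * (Nat.gcdA a b : ℚ) + (b : ℚ) * (Nat.gcdB a b : ℚ) = 1 := by exact_mod_cast hbz
      push_cast
      rw [div_add_div _ _ ha0 hb0]
      congr 1
      calc (C : ℚ) * z = (C : ℚ) * z * ((a : ℚ) * (Nat.gcdA a b : ℚ) + (b : ℚ) * (Nat.gcdB a b : ℚ)) := by
            rw [hbq, mul_one]
        _ = _ := by ring
    rw [h3]
    exact hadd _ _ h1 h2

theorem S_SAR (hZI : S_ZI_stmt) : S_SAR_stmt := by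
  intro n hn m hm Δ hfi hunb
  obtain ⟨N, hN1, hN⟩ := S_SAR_int n m Δ hfi
  have hPN : ∀ i j : Fin n, i ≠ j → S_SAR_P Δ i j N := by
    intro i j hij
    have h1 := hN (Pi.single i 1) (Pi.single j 1) (by
      rw [single_dotProduct, Pi.single_eq_of_ne hij.symm, mul_zero])
    have hmem : (N : ℚ) ∈ ZI m := Subalgebra.natCast_mem _ N
    refine ⟨hmem, ?_⟩
    have h2 : vecMulVec (fun b => (N : ZI m) * (((Pi.single i 1 : Fin n → ℤ) b : ℤ) : ZI m))
        (fun b => (((Pi.single j 1 : Fin n → ℤ) b : ℤ) : ZI m)) =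
        Matrix.single i j (⟨(N : ℚ), hmem⟩ : ZI m) := by
      have e : (⟨(N : ℚ), hmem⟩ : ZI m) = (N : ZI m) := rfl
      rw [e]
      refine Matrix.ext fun a b => ?_
      rw [vecMulVec_apply]
      by_cases ha : a = i
      · by_cases hb : b = j
        · subst ha hb
          rw [Pi.single_eq_same, Pi.single_eq_same, Matrix.single_apply_same, Int.cast_one, mul_one,
            mul_one]
        · rw [Pi.single_eq_of_ne hb, Int.cast_zero, mul_zero,
            Matrix.single_apply_of_ne (h := fun h => hb h.2.symm)]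
      · rw [Pi.single_eq_of_ne ha, Int.cast_zero, mul_zero, zero_mul,
          Matrix.single_apply_of_ne (h := fun h => ha h.1.symm)]
    rw [h2] at h1
    exact h1
  -- all pairs
  have hall : ∀ q : ℕ, q.Prime → q ∣ m → ∀ r : ℕ, ∀ p p' : Fin n, p ≠ p' →
      S_SAR_P Δ p p' (((N ^ 7 : ℕ) : ℚ) / (q : ℚ) ^ r) := by
    intro q hq hqm r p p' hpp
    rcases Nat.eq_zero_or_pos r with hr | hr
    · subst hr
      have h1 := S_SAR_P_zsmul hpp ((N : ℤ) ^ 6) (hPN p p' hpp)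
      have h2 : ((N ^ 7 : ℕ) : ℚ) / (q : ℚ) ^ 0 = (((N : ℤ) ^ 6 : ℤ) : ℚ) * N := by
        push_cast
        ring
      rw [h2]
      exact h1
    · obtain ⟨i, k, c, hik, hcd, hc⟩ := S_SAR_q hn Δ N hN q hq r hr (hunb q hq hqm (2 * r))
      have hq0 : (q : ℚ) ≠ 0 := by exact_mod_cast hq.ne_zero
      obtain ⟨d', hd'⟩ := hcd
      have hd0 : (d' : ℚ) ≠ 0 := by
        intro h1
        have h2 : d' = 0 := by exact_mod_cast h1
        rw [h2, mul_zero] at hd'
        exact c.den_ne_zero hd'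
      -- multiply by `d'`
      have h1 := S_SAR_P_zsmul hik (d' : ℤ) hc
      have hcop : IsCoprime c.num ((q : ℤ) ^ r) := by
        rw [Int.isCoprime_iff_gcd_eq_one]
        have h2 : Nat.Coprime c.num.natAbs (q ^ r) :=
          Nat.Coprime.coprime_dvd_right ⟨d', hd'⟩ c.reduced
        rw [Int.gcd, Int.natAbs_pow, Int.natAbs_natCast]
        exact h2
      obtain ⟨α, β, hαβ⟩ := hcop
      have h2 := S_SAR_P_zsmul hik α h1
      have h3 := S_SAR_P_zsmul hik (β * (N : ℤ) ^ 3) (hPN i k hik)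
      have h4 := S_SAR_P_add hik h2 h3
      have h5 : (α : ℚ) * (((d' : ℤ) : ℚ) * ((N : ℚ) ^ 4 * c)) + ((β * (N : ℤ) ^ 3 : ℤ) : ℚ) * N =
          (N : ℚ) ^ 4 / (q : ℚ) ^ r := by
        have hαβ' : (α : ℚ) * c.num + (β : ℚ) * (q : ℚ) ^ r = 1 := by exact_mod_cast hαβ
        have hc' : c = c.num / ((q : ℚ) ^ r * d') := by
          conv_lhs => rw [← Rat.num_div_den c, hd']
          push_cast
          rfl
        have hc'' : (d' : ℚ) * c = c.num / (q : ℚ) ^ r := by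
          conv_lhs => rw [hc']
          field_simp
        have hqr : (q : ℚ) ^ r ≠ 0 := pow_ne_zero _ hq0
        push_cast
        calc (α : ℚ) * ((d' : ℚ) * ((N : ℚ) ^ 4 * c)) + (β : ℚ) * (N : ℚ) ^ 3 * N =
              (N : ℚ) ^ 4 * ((α : ℚ) * ((d' : ℚ) * c) + β) := by ring
          _ = (N : ℚ) ^ 4 * (((α : ℚ) * c.num + (β : ℚ) * (q : ℚ) ^ r) / (q : ℚ) ^ r) := by
              rw [hc'']
              congr 1
              field_simp
          _ = (N : ℚ) ^ 4 / (q : ℚ) ^ r := by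
              rw [hαβ']
              ring
      rw [h5] at h4
      have h6 := S_SAR_moves hn hPN hik h4 p p' hpp
      have h7 : ((N ^ 7 : ℕ) : ℚ) / (q : ℚ) ^ r = (N : ℚ) ^ 3 * ((N : ℚ) ^ 4 / (q : ℚ) ^ r) := by
        push_cast
        ring
      rw [h7]
      exact h6
  obtain ⟨k, m', K, hC, hk1, hm'1, hkm, hm'K⟩ := S_SAR_fac m (N ^ 7) (Nat.one_le_pow _ _ hN1)
  refine ⟨k, hk1, hkm, fun x i j a hij hx => ?_⟩
  obtain ⟨K1, hK1⟩ := (hZI m hm (a : ℚ)).mp a.2
  have hP : S_SAR_P Δ i j (((N ^ 7 : ℕ) : ℚ) * (a : ℚ).num / ((m' * (a : ℚ).den : ℕ) : ℚ)) := by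
    refine S_SAR_pf (m := m) (S_SAR_P Δ i j) (N ^ 7) (fun _ _ => S_SAR_P_add hij)
      (fun z _ => S_SAR_P_zsmul hij z) ?_ (fun q hq hqm r => hall q hq hqm r i j hij) (K + K1)
      (m' * (a : ℚ).den) (Nat.mul_pos hm'1 (a : ℚ).den_pos) ?_ _
    · have h1 := S_SAR_P_zsmul hij ((N : ℤ) ^ 6) (hPN i j hij)
      have h2 : ((N ^ 7 : ℕ) : ℚ) = (((N : ℤ) ^ 6 : ℤ) : ℚ) * N := by
        push_cast
        ring
      rw [h2]
      exact h1
    · rw [pow_add]
      exact Nat.mul_dvd_mul hm'K hK1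
  have hval : ((N ^ 7 : ℕ) : ℚ) * (a : ℚ).num / ((m' * (a : ℚ).den : ℕ) : ℚ) = ((k : ZI m) * a : ZI m) := by
    rw [hC]
    push_cast
    have hm0 : (m' : ℚ) ≠ 0 := by
      have : m' ≠ 0 := by omega
      exact_mod_cast this
    have hd0 : ((a : ℚ).den : ℚ) ≠ 0 := by exact_mod_cast (a : ℚ).den_ne_zero
    conv_rhs => rw [← Rat.num_div_den (a : ℚ)]
    field_simp
  rw [hval] at hP
  obtain ⟨h1, y, hy, hyx⟩ := hP
  have h2 : x = y := by
    apply Subtype.ext
    rw [hx]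
    exact hyx.symm
  rw [h2]
  exact hy

end Pool.Agent.PR
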