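import Pool.Agent.helper5.PR.SpecY
import Pool.Agent.helper45.PR.N_FIN

/-!
# Project pr: (MP_a2a22c_al), module Y-NILU: rank one elements in representations of nilpotent groups
which are not virtually linear of degree `n - 1`
-/

set_option autoImplicit false

namespace Pool.Agent.PR

open Matrix Module

theorem Y_NILU_nonemb {k : ℕ} {P : Type} [Group P] (hP : NonEmb k P) (H : Subgroup P)
    (hH : H.FiniteIndex) : NonEmb k H := by
  obtain ⟨h1, h2, h3, h4⟩ := hP
  have hfg : Group.FG H := by
    have := h1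
    exact Subgroup.fg_of_index_ne_zero H
  have hnil : Group.IsNilpotent H := by
    have := h2
    infer_instance
  refine ⟨hfg, hnil, ?_, ?_⟩
  · intro g hg k hk h5
    refine h3 (g : P) (fun h6 => hg (Subtype.ext h6)) k hk ?_
    have h6 := congrArg (fun x : H => (x : P)) h5
    exact h6
  · intro H' hH' E _ _ f hf
    have hfin : (H'.map H.subtype).FiniteIndex := by
      constructor
      have h5 := Subgroup.index_map_subtype H'
      rw [h5]
      exact mul_ne_zero hH'.index_ne_zero hH.index_ne_zero
    let e : H' ≃* H'.map H.subtype := H'.equivMapOfInjective H.subtype H.subtype_injective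
    refine h4 (H'.map H.subtype) hfin E (f.comp e.symm.toMonoidHom) ?_
    exact hf.comp e.symm.injective

theorem Y_NILU (hTRI : N_TRI_stmt) (hPOWF : Y_POWF_stmt) (hEMB : Y_EMB_stmt)
    (hSINGLE : Y_SINGLE_stmt) : Y_NILU_stmt := by
  intro n hn F _ _ P _ hP ρ hρ hdet
  let K := AlgebraicClosure F
  have hK0 : CharZero K := charZero_of_injective_algebraMap (algebraMap F K).injective
  have hdim : finrank K (Fin n → K) = n := Module.finrank_fin_fun K
  have hinj := N_FIN_inj (K := K) ρ hρ
  have hnil : Group.IsNilpotent P := hP.2.1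
  obtain ⟨c, hc⟩ := hnil.nilpotent
  set E : ℕ := (finrank K (Fin n → K)).factorial ^ c with hE
  have hE0 : 0 < E := pow_pos (Nat.factorial_pos _) _
  set H : Subgroup P := Subgroup.closure (Set.range fun g : P => g ^ E) with hH
  have hpow : ∀ g : P, g ^ E ∈ H := fun g => Subgroup.subset_closure ⟨g, rfl⟩
  have hnorm : H.Normal := by
    refine ⟨fun x hx g => ?_⟩
    induction hx using Subgroup.closure_induction with
    | mem x hx =>
      obtain ⟨y, rfl⟩ := hx
      have h1 : g * y ^ E * g⁻¹ = (g * y * g⁻¹) ^ E := (conj_pow).symm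
      change g * y ^ E * g⁻¹ ∈ H
      rw [h1]
      exact hpow _
    | one => rw [mul_one, mul_inv_cancel]; exact H.one_mem
    | mul x y _ _ hx hy =>
      have h1 : g * (x * y) * g⁻¹ = (g * x * g⁻¹) * (g * y * g⁻¹) := by group
      rw [h1]
      exact H.mul_mem hx hy
    | inv x _ hx =>
      have h1 : g * x⁻¹ * g⁻¹ = (g * x * g⁻¹)⁻¹ := by group
      rw [h1]
      exact H.inv_mem hx
  have hfi : H.FiniteIndex := hPOWF P hP.1 hP.2.1 H hnorm fun g => ⟨E, hE0, hpow g⟩
  have hHN : NonEmb (n - 1) H := Y_NILU_nonemb hP H hfi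
  set ρ' : P →* Module.End K (Fin n → K) := N_FIN_ext K ρ with hρ'
  have htri : TriS (ρ'.comp H.subtype) := hTRI K (Fin n → K) P c hc ρ' H rfl
  have hinjH : Function.Injective (ρ'.comp H.subtype) := hinj.comp H.subtype_injective
  have hdet' : ∀ g : P, LinearMap.det (ρ' g) = 1 := by
    intro g
    change LinearMap.det (Matrix.toLin' ((ρ g).map (algebraMap F K))) = 1
    rw [LinearMap.det_toLin', ← RingHom.mapMatrix_apply, ← RingHom.map_det, hdet, map_one]
  by_cases hx : ∃ x : H, ¬ ∃ a : K, IsNilpotent ((ρ'.comp H.subtype) x - a • (1 : Module.End K (Fin n → K)))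
  · exfalso
    obtain ⟨x, hx⟩ := hx
    have h1 := hEMB K (Fin n → K) H hHN.1 hHN.2.1 hHN.2.2.1 (ρ'.comp H.subtype) htri hinjH x hx
    rw [hdim] at h1
    obtain ⟨f, hf⟩ := h1
    exact hP.2.2.2 H hfi K f hf
  · push Not at hx
    have h2 : NonEmb (finrank K (Fin n → K) - 1) H := by rw [hdim]; exact hHN
    obtain ⟨t, u, h3, h4, h5, h6⟩ := hSINGLE K (Fin n → K) H (by rw [hdim]; exact hn) h2
      (ρ'.comp H.subtype) htri hinjH (fun g => hdet' g) hx
    refine ⟨(t : P), (u : P), ?_, ?_, ?_, ?_⟩
    · have h7 := congrArg (fun x : H => (x : P)) h3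
      exact h7
    · rw [← N_FIN_rank (K := K)]
      exact h4
    · intro k hk m h7
      refine h5 k hk m (Subtype.ext ?_)
      rw [Subgroup.coe_pow, Subgroup.coe_zpow]
      exact h7
    · have h7 : (N_FIN_ext K ρ (u : P) - 1) ^ n = 0 := by
        rw [hdim] at h6
        exact h6
      rw [N_FIN_sub] at h7
      have h8 : Matrix.toLin' (((ρ u - 1) ^ n).map (algebraMap F K)) = 0 := by
        have h9 : ((ρ u - 1) ^ n).map (algebraMap F K) = ((ρ u - 1).map (algebraMap F K)) ^ n := by
          rw [← RingHom.mapMatrix_apply, ← RingHom.mapMatrix_apply, map_pow]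
        rw [h9]
        have h10 : ∀ A : Matrix (Fin n) (Fin n) K, Matrix.toLin' A =
          (Matrix.toLinAlgEquiv' : Matrix (Fin n) (Fin n) K ≃ₐ[K] _) A := fun _ => rfl
        rw [h10, map_pow]
        rw [h10] at h7
        exact h7
      have h11 : ((ρ u - 1) ^ n).map (algebraMap F K) = 0 := by
        apply Matrix.toLin'.injective
        rw [h8, map_zero]
      ext i j
      have h12 := congrFun (congrFun h11 i) j
      rw [Matrix.map_apply, Matrix.zero_apply] at h12
      rw [Matrix.zero_apply]
      exact (map_eq_zero (algebraMap F K)).mp h12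

end Pool.Agent.PR
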